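import Pool.Graph.R_pool_sql_team_seeded_64922ed1.Results.MP_632fda_an.Weakenings
import Pool.Graph.R_pool_sql_team_seeded_47a924f7.Results.MP_632fda_an.Q2True

/-!
# Drazin invertibility of completions: the hypotheses of the known theorem are necessary
-/

set_option autoImplicit false

namespace Pool.Agent.Results.MP_632fda_an.SharpHypotheses

open Pool.Agent.Results.MP_632fda_an.Weakenings

section

variable {H K : Type} [NormedAddCommGroup H] [InnerProductSpace ℂ H]
  [NormedAddCommGroup K] [InnerProductSpace ℂ K]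
  {A : H →L[ℂ] H} {B : K →L[ℂ] K} {C : K →L[ℂ] H}

theorem ker_le_SS {p : ℕ}
    (hA : LinearMap.ker ((A : H →ₗ[ℂ] H) ^ (p + 1)) = LinearMap.ker ((A : H →ₗ[ℂ] H) ^ p))
    (j : ℕ) : LinearMap.ker ((A : H →ₗ[ℂ] H) ^ j) ≤ SS A p := by
  intro z hz
  refine Submodule.mem_sup_right ?_
  rcases le_total j p with h | h
  · rw [LinearMap.mem_ker] at hz ⊢
    obtain ⟨k, rfl⟩ := Nat.exists_eq_add_of_le h
    rw [add_comm, pow_add, Module.End.mul_apply, hz, map_zero]
  · obtain ⟨k, rfl⟩ := Nat.exists_eq_add_of_le h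
    rw [ker_stable _ hA k] at hz
    exact hz

/-- the kernel of a power of `M_C` -/
theorem ker_mat_pow [CompleteSpace K] {p : ℕ}
    (hA : LinearMap.ker ((A : H →ₗ[ℂ] H) ^ (p + 1)) = LinearMap.ker ((A : H →ₗ[ℂ] H) ^ p))
    (hC : Admissible A B p C) {n : ℕ} {x : H} {y : K} (hv : ((mat A B C) ^ n) (x, y) = 0) :
    (∀ i, i < n → C (((B : K →ₗ[ℂ] K) ^ i) y) = 0) ∧ ((B : K →ₗ[ℂ] K) ^ n) y = 0 ∧
      ((A : H →ₗ[ℂ] H) ^ n) x = 0 := by
  rw [mat_pow] at hv
  have hu : fstPow A B C x y n = 0 := congrArg Prod.fst hv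
  have hb : ((B : K →ₗ[ℂ] K) ^ n) y = 0 := congrArg Prod.snd hv
  have hrA : ∀ z, A z ∈ SS A p := fun z => Submodule.mem_sup_left ⟨z, rfl⟩
  have key : ∀ j, j ≤ n → ((A : H →ₗ[ℂ] H) ^ j) (fstPow A B C x y (n - j)) = 0 ∧
      ∀ i, n - j ≤ i → i < n → C (((B : K →ₗ[ℂ] K) ^ i) y) = 0 := by
    intro j
    induction j with
    | zero => exact fun _ => ⟨by simpa using hu, fun i h1 h2 => by omega⟩
    | succ j ih =>
      intro hj
      obtain ⟨h1, h2⟩ := ih (by omega)
      have h3 : fstPow A B C x y (n - j) = A (fstPow A B C x y (n - (j + 1))) +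
          C (((B : K →ₗ[ℂ] K) ^ (n - (j + 1))) y) := by
        rw [show n - j = (n - (j + 1)) + 1 by omega]
        rfl
      have h4 : C (((B : K →ₗ[ℂ] K) ^ (n - (j + 1))) y) = 0 := by
        refine mem_both (S := SS A p) ?_ (adm_mem hC _)
        have h5 : C (((B : K →ₗ[ℂ] K) ^ (n - (j + 1))) y) = fstPow A B C x y (n - j) -
            A (fstPow A B C x y (n - (j + 1))) := by rw [h3]; abel
        rw [h5]
        exact sub_mem (ker_le_SS hA j h1) (hrA _)
      rw [h4, add_zero] at h3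
      refine ⟨?_, fun i hi1 hi2 => ?_⟩
      · rw [pow_succ, Module.End.mul_apply]
        rw [h3] at h1
        exact h1
      · rcases Nat.eq_or_lt_of_le hi1 with h | h
        · rw [← h]; exact h4
        · exact h2 i (by omega) hi2
  obtain ⟨h1, h2⟩ := key n le_rfl
  rw [Nat.sub_self] at h1 h2
  exact ⟨fun i hi => h2 i (Nat.zero_le _) hi, hb, h1⟩

/-- the closed complement of the range of `B ^ n` -/
def WW (B : K →L[ℂ] K) (C : K →L[ℂ] H) (n : ℕ) : Submodule ℂ K where
  carrier := {y | (∀ i, i < n → C ((B ^ i) y) = 0) ∧ (B ^ n) y = 0}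
  add_mem' := by
    rintro a b ⟨h1, h2⟩ ⟨h3, h4⟩
    exact ⟨fun i hi => by rw [map_add, map_add, h1 i hi, h3 i hi, add_zero],
      by rw [map_add, h2, h4, add_zero]⟩
  zero_mem' := ⟨fun i _ => by rw [map_zero, map_zero], map_zero _⟩
  smul_mem' := by
    rintro c a ⟨h1, h2⟩
    exact ⟨fun i hi => by rw [map_smul, map_smul, h1 i hi, smul_zero],
      by rw [map_smul, h2, smul_zero]⟩

theorem isClosed_WW (n : ℕ) : IsClosed (WW B C n : Set K) := by
  have : (WW B C n : Set K) = (⋂ i, ⋂ (_ : i < n), {y | C ((B ^ i) y) = 0}) ∩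
      {y | (B ^ n) y = 0} := by
    ext y
    simp only [Set.mem_inter_iff, Set.mem_iInter, Set.mem_ofPred_eq]
    rfl
  rw [this]
  exact (isClosed_iInter fun i => isClosed_iInter fun _ =>
    isClosed_eq (C.continuous.comp (B ^ i).continuous) continuous_const).inter
    (isClosed_eq (B ^ n).continuous continuous_const)

theorem coe_pow (n : ℕ) (y : K) : ((B : K →ₗ[ℂ] K) ^ n) y = (B ^ n) y := by
  induction n with
  | zero => rfl
  | succ n ih =>
    rw [pow_succ', pow_succ', Module.End.mul_apply, ih]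
    rfl

theorem range_pow_anti {E : Type} [AddCommGroup E] [Module ℂ E] (T : E →ₗ[ℂ] E) {m n : ℕ}
    (h : m ≤ n) : LinearMap.range (T ^ n) ≤ LinearMap.range (T ^ m) := by
  rintro _ ⟨y, rfl⟩
  obtain ⟨k, rfl⟩ := Nat.exists_eq_add_of_le h
  rw [pow_add, Module.End.mul_apply]
  exact ⟨_, rfl⟩

/-- `C` is injective on `N(B) ∩ R(B^p)` -/
theorem adm_inj {p : ℕ} (hC : Admissible A B p C) {y : K} (hy : y ∈ TT B p) (h0 : C y = 0) :
    y = 0 := by
  obtain ⟨J, hJ, hJ0⟩ := hC
  have h1 := hJ ⟨y, hy⟩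
  have h2 : J ⟨y, hy⟩ = 0 := by
    apply Subtype.ext
    rw [← h1]
    exact h0
  exact congrArg Subtype.val ((J.map_eq_zero_iff).mp h2)

theorem isCompl_WW [CompleteSpace K] {p : ℕ}
    (hA : LinearMap.ker ((A : H →ₗ[ℂ] H) ^ (p + 1)) = LinearMap.ker ((A : H →ₗ[ℂ] H) ^ p))
    (hC : Admissible A B p C) {n : ℕ} (hn : p ≤ n)
    (hM : LinearMap.range ((mat A B C) ^ (n + n)) = LinearMap.range ((mat A B C) ^ n)) :
    IsCompl (LinearMap.range ((B : K →ₗ[ℂ] K) ^ n)) (WW B C n) := by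
  constructor
  · rw [Submodule.disjoint_def]
    rintro r hr ⟨hr1, hr2⟩
    have key : ∀ j, j ≤ n → ((B : K →ₗ[ℂ] K) ^ (n - j)) r = 0 := by
      intro j
      induction j with
      | zero => intro _; rw [Nat.sub_zero, coe_pow]; exact hr2
      | succ j ih =>
        intro hj
        have h1 := ih (by omega)
        refine adm_inj hC ?_ (by rw [coe_pow]; exact hr1 _ (by omega))
        refine Submodule.le_topologicalClosure _ ⟨?_, ?_⟩
        · rw [SetLike.mem_coe, LinearMap.mem_ker]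
          rw [show n - j = (n - (j + 1)) + 1 by omega, pow_succ', Module.End.mul_apply] at h1
          exact h1
        · obtain ⟨s, rfl⟩ := hr
          rw [← Module.End.mul_apply, ← pow_add]
          exact range_pow_anti _ (show p ≤ n - (j + 1) + n by omega) ⟨s, rfl⟩
    have := key n le_rfl
    rw [Nat.sub_self] at this
    exact this
  · rw [codisjoint_iff, eq_top_iff]
    rintro y -
    have h1 : ((mat A B C) ^ n) (0, y) ∈ LinearMap.range ((mat A B C) ^ (n + n)) := by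
      rw [hM]; exact ⟨_, rfl⟩
    obtain ⟨⟨x', y'⟩, hw⟩ := h1
    rw [pow_add, Module.End.mul_apply] at hw
    have h2 : ((mat A B C) ^ n) ((0, y) - ((mat A B C) ^ n) (x', y')) = 0 := by
      rw [map_sub, hw, sub_self]
    rw [mat_pow A B C x' y' n, Prod.mk_sub_mk] at h2
    obtain ⟨h3, h4, -⟩ := ker_mat_pow hA hC (x := 0 - fstPow A B C x' y' n)
      (y := y - ((B : K →ₗ[ℂ] K) ^ n) y') h2
    refine Submodule.mem_sup.mpr ⟨((B : K →ₗ[ℂ] K) ^ n) y', ⟨y', rfl⟩,
      y - ((B : K →ₗ[ℂ] K) ^ n) y', ⟨fun i hi => ?_, ?_⟩, by abel⟩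
    · rw [← coe_pow]; exact h3 i hi
    · rw [← coe_pow]; exact h4

/-- an operator range with a closed algebraic complement is closed -/
theorem isClosed_range_of_isCompl [CompleteSpace K] (T : K →L[ℂ] K) (G : Submodule ℂ K)
    (h : IsCompl (LinearMap.range (T : K →ₗ[ℂ] K)) G) (hG : IsClosed (G : Set K)) :
    IsClosed (LinearMap.range (T : K →ₗ[ℂ] K) : Set K) := by
  set N : Submodule ℂ K := LinearMap.ker (T : K →ₗ[ℂ] K) with hN
  have hNc : IsClosed (N : Set K) := T.isClosed_ker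
  have : CompleteSpace N := hNc.completeSpace_coe
  let f : Nᗮ →L[ℂ] K := T.comp Nᗮ.subtypeL
  have hr : LinearMap.range (f : Nᗮ →ₗ[ℂ] K) = LinearMap.range (T : K →ₗ[ℂ] K) := by
    apply le_antisymm
    · rintro _ ⟨x, rfl⟩
      exact ⟨(x : K), rfl⟩
    · rintro _ ⟨x, rfl⟩
      obtain ⟨n, hn, y, hy, h⟩ := Submodule.exists_add_mem_mem_orthogonal (K := N) x
      refine ⟨⟨y, hy⟩, ?_⟩
      have h0 : T n = 0 := hn
      show T y = T x
      rw [h, map_add, h0, zero_add]
  have hk : f.ker = ⊥ := by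
    rw [eq_bot_iff]
    rintro ⟨x, hx⟩ h0
    have h1 : x ∈ N := h0
    exact Subtype.ext (mem_both h1 hx)
  have h2 := ContinuousLinearMap.closed_complemented_range_of_isCompl_of_ker_eq_bot f G
    (by rw [show f.range = _ from hr]; exact h) hG hk
  rw [show f.range = _ from hr] at h2
  exact h2

theorem range_dbl {E : Type} [AddCommGroup E] [Module ℂ E] {T : E →ₗ[ℂ] E} {m n : ℕ}
    (h : LinearMap.range (T ^ (m + 1)) = LinearMap.range (T ^ m)) (hn : m ≤ n) :
    LinearMap.range (T ^ n) = LinearMap.range (T ^ m) := by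
  obtain ⟨k, rfl⟩ := Nat.exists_eq_add_of_le hn
  exact range_stable T h k

/-- finite descent of `M_C` makes `R(B^p)` closed -/
theorem closed_of_dsc [CompleteSpace K] {p : ℕ}
    (hA : LinearMap.ker ((A : H →ₗ[ℂ] H) ^ (p + 1)) = LinearMap.ker ((A : H →ₗ[ℂ] H) ^ p))
    (hB : LinearMap.range ((B : K →ₗ[ℂ] K) ^ (p + 1)) = LinearMap.range ((B : K →ₗ[ℂ] K) ^ p))
    (hC : Admissible A B p C) (hd : dsc (mat A B C) < ⊤) :
    IsClosed (LinearMap.range ((B : K →ₗ[ℂ] K) ^ p) : Set K) := by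
  obtain ⟨m, hm⟩ := exists_of_dsc_lt_top hd
  have h1 := isCompl_WW hA hC (n := max m p) (le_max_right _ _)
    (by rw [range_dbl hm (le_add_right (le_max_left m p)), range_dbl hm (le_max_left m p)])
  have h2 : LinearMap.range ((B : K →ₗ[ℂ] K) ^ (max m p)) =
      LinearMap.range ((B ^ (max m p) : K →L[ℂ] K) : K →ₗ[ℂ] K) := by
    ext y
    constructor
    · rintro ⟨z, rfl⟩; exact ⟨z, (coe_pow _ _).symm⟩
    · rintro ⟨z, rfl⟩; exact ⟨z, coe_pow _ _⟩
  have h3 := isClosed_range_of_isCompl (B ^ (max m p)) (WW B C (max m p))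
    (by rw [← h2]; exact h1) (isClosed_WW _)
  rw [← h2, range_dbl hB (le_max_right m p)] at h3
  exact h3

/-- finite descent of `M_C` makes `R(A) + N(A^p)` closed -/
theorem closed_SS_of_dsc [CompleteSpace K] {p : ℕ}
    (hA : LinearMap.ker ((A : H →ₗ[ℂ] H) ^ (p + 1)) = LinearMap.ker ((A : H →ₗ[ℂ] H) ^ p))
    (hC : Admissible A B p C) (hd : dsc (mat A B C) < ⊤) :
    IsClosed (SS A p : Set H) := by
  obtain ⟨m, hm⟩ := exists_of_dsc_lt_top hd
  have hM : LinearMap.range ((mat A B C) ^ ((m + 1) + (m + 1))) =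
      LinearMap.range ((mat A B C) ^ (m + 1)) := by
    rw [range_dbl hm (show m ≤ (m + 1) + (m + 1) by omega),
      range_dbl hm (show m ≤ m + 1 by omega)]
  have hsum : ∀ x : H, ∃ s ∈ SS A p, ∃ t ∈ (SS A p)ᗮ, x = s + t := by
    intro x
    have h1 : ((mat A B C) ^ (m + 1)) (x, 0) ∈
        LinearMap.range ((mat A B C) ^ ((m + 1) + (m + 1))) := by
      rw [hM]; exact ⟨_, rfl⟩
    obtain ⟨⟨x', y'⟩, hw⟩ := h1
    rw [pow_add, Module.End.mul_apply] at hw
    have h2 : ((mat A B C) ^ (m + 1)) ((x, 0) - ((mat A B C) ^ (m + 1)) (x', y')) = 0 := by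
      rw [map_sub, hw, sub_self]
    rw [mat_pow A B C x' y' (m + 1), Prod.mk_sub_mk] at h2
    obtain ⟨-, -, h5⟩ := ker_mat_pow hA hC (x := x - fstPow A B C x' y' (m + 1))
      (y := 0 - ((B : K →ₗ[ℂ] K) ^ (m + 1)) y') h2
    have h6 : fstPow A B C x' y' (m + 1) = A (fstPow A B C x' y' m) +
        C (((B : K →ₗ[ℂ] K) ^ m) y') := rfl
    refine ⟨(x - fstPow A B C x' y' (m + 1)) + A (fstPow A B C x' y' m),
      add_mem (ker_le_SS hA _ h5) (Submodule.mem_sup_left ⟨_, rfl⟩),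
      C (((B : K →ₗ[ℂ] K) ^ m) y'), adm_mem hC _, ?_⟩
    rw [h6]; abel
  have heq : SS A p = ((SS A p)ᗮ)ᗮ := by
    apply le_antisymm (Submodule.le_orthogonal_orthogonal _)
    intro x hx
    obtain ⟨s, hs, t, ht, rfl⟩ := hsum x
    have h1 : t ∈ ((SS A p)ᗮ)ᗮ := by
      have := sub_mem hx (Submodule.le_orthogonal_orthogonal _ hs)
      rwa [add_sub_cancel_left] at this
    rw [mem_both ht h1, add_zero]
    exact hs
  rw [heq]
  exact Submodule.isClosed_orthogonal _

/-- `M_C` has finite descent once `N(B) ∩ R(B^p)` and `R(A) + N(A^p)` are closed -/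
theorem dsc_mat' [CompleteSpace H] [CompleteSpace K] {p : ℕ} (hp : 1 ≤ p)
    (hB : LinearMap.range ((B : K →ₗ[ℂ] K) ^ (p + 1)) = LinearMap.range ((B : K →ₗ[ℂ] K) ^ p))
    (hBc : IsClosed (((LinearMap.ker (B : K →ₗ[ℂ] K) ⊓ LinearMap.range ((B : K →ₗ[ℂ] K) ^ p) :
      Submodule ℂ K)) : Set K))
    (hS : IsClosed (SS A p : Set H))
    (hC : Admissible A B p C) :
    LinearMap.range ((mat A B C) ^ (p + 1)) = LinearMap.range ((mat A B C) ^ p) := by
  apply le_antisymm
  · rintro _ ⟨v, rfl⟩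
    rw [pow_succ, Module.End.mul_apply]
    exact ⟨_, rfl⟩
  have hTT : TT B p = LinearMap.ker (B : K →ₗ[ℂ] K) ⊓ LinearMap.range ((B : K →ₗ[ℂ] K) ^ p) :=
    IsClosed.submodule_topologicalClosure_eq hBc
  obtain ⟨J, hJ, hJ0⟩ := hC
  have : CompleteSpace (TT B p) :=
    (Submodule.isClosed_topologicalClosure _).completeSpace_coe
  have : CompleteSpace (SS A p) := hS.completeSpace_coe
  -- correction of elements of `N(B^p)`
  have corr : ∀ n ∈ LinearMap.ker ((B : K →ₗ[ℂ] K) ^ p), ∀ k, k ≤ p →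
      ∃ n' ∈ LinearMap.ker ((B : K →ₗ[ℂ] K) ^ p), (∃ z, n - n' = B z) ∧
        ∀ j, p - k ≤ j → j < p → C (((B : K →ₗ[ℂ] K) ^ j) n') = 0 := by
    intro n hn k
    induction k with
    | zero =>
      intro _
      exact ⟨n, hn, ⟨0, by simp⟩, fun j h1 h2 => by omega⟩
    | succ k ih =>
      intro hk
      obtain ⟨n', hn', ⟨z, hz⟩, hj⟩ := ih (by omega)
      set j0 := p - (k + 1) with hj0
      have ht : (TT B p).starProjection (((B : K →ₗ[ℂ] K) ^ j0) n') ∈ TT B p :=
        Submodule.starProjection_apply_mem _ _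
      set t := (TT B p).starProjection (((B : K →ₗ[ℂ] K) ^ j0) n') with htdef
      have ht2 := ht
      rw [hTT] at ht2
      obtain ⟨htk, htr⟩ := ht2
      rw [SetLike.mem_coe, LinearMap.mem_ker] at htk
      rw [SetLike.mem_coe, ← range_stable (B : K →ₗ[ℂ] K) hB j0] at htr
      obtain ⟨w0, hw0⟩ := htr
      rw [add_comm, pow_add, Module.End.mul_apply] at hw0
      set w := ((B : K →ₗ[ℂ] K) ^ p) w0 with hw
      have hwB : ∀ j, j0 < j → ((B : K →ₗ[ℂ] K) ^ j) w = 0 := by
        intro j hjj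
        obtain ⟨i, rfl⟩ := Nat.exists_eq_add_of_lt hjj
        rw [show j0 + i + 1 = i + (1 + j0) by ring, pow_add, pow_add, Module.End.mul_apply,
          Module.End.mul_apply, hw0, pow_one, htk, map_zero]
      refine ⟨n' - w, ?_, ?_, ?_⟩
      · rw [LinearMap.mem_ker, map_sub, hwB p (by omega), sub_zero]
        exact hn'
      · refine ⟨z + ((B : K →ₗ[ℂ] K) ^ (p - 1)) w0, ?_⟩
        have h1 : w = B (((B : K →ₗ[ℂ] K) ^ (p - 1)) w0) := by
          rw [hw]
          conv_lhs => rw [show p = (p - 1) + 1 by omega, pow_succ']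
          rfl
        rw [map_add, ← hz, ← h1]
        abel
      · intro j h1 h2
        by_cases hjj : j = j0
        · subst hjj
          rw [map_sub, hw0]
          apply hJ0
          exact Submodule.sub_starProjection_mem_orthogonal _
        · rw [map_sub, hwB j (by omega), sub_zero]
          exact hj j (by omega) h2
  rintro _ ⟨⟨x, y⟩, rfl⟩
  -- decompose
  have hy : ∃ z, ((B : K →ₗ[ℂ] K) ^ p) y = ((B : K →ₗ[ℂ] K) ^ (p + 1)) z := by
    have : ((B : K →ₗ[ℂ] K) ^ p) y ∈ LinearMap.range ((B : K →ₗ[ℂ] K) ^ (p + 1)) := by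
      rw [hB]; exact ⟨y, rfl⟩
    obtain ⟨z, hz⟩ := this
    exact ⟨z, hz.symm⟩
  obtain ⟨z, hz⟩ := hy
  obtain ⟨n', hn', ⟨z', hz'⟩, hj⟩ := corr (y - B z) (by
    rw [LinearMap.mem_ker, map_sub, hz, pow_succ, Module.End.mul_apply]
    exact sub_self _) p le_rfl
  have hy2 : y = B (z + z') + n' := by
    rw [map_add, ← hz']; abel
  set z'' := z + z' with hz''
  obtain ⟨s, hs, s', hs', hss⟩ : ∃ s ∈ SS A p, ∃ s' ∈ (SS A p)ᗮ, x - C z'' = s + s' := by
    refine ⟨(SS A p).starProjection (x - C z''), Submodule.starProjection_apply_mem _ _,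
      (x - C z'') - (SS A p).starProjection (x - C z''),
      Submodule.sub_starProjection_mem_orthogonal _, by abel⟩
  obtain ⟨_, ⟨a, rfl⟩, u, hu, hau⟩ := Submodule.mem_sup.mp hs
  have ht := hJ (J.symm ⟨s', hs'⟩)
  rw [ContinuousLinearEquiv.apply_symm_apply] at ht
  set t := J.symm ⟨s', hs'⟩ with htdef
  have hBt : B (t : K) = 0 := by
    have h1 := hTT.le t.2
    exact h1.1
  have hv : ((x, y) : H × K) = mat A B C (a, z'' + t) + (u, n') := by
    rw [mat_apply]
    apply Prod.ext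
    · show x = A a + C (z'' + t) + u
      have h1 : x = (x - C z'') + C z'' := by abel
      rw [h1, hss, ← hau, map_add C z'' (t : K), ht]
      show (A a + u) + s' + C z'' = A a + (C z'' + s') + u
      abel
    · show y = B (z'' + t) + n'
      rw [map_add, hBt, add_zero]
      exact hy2
  have hker : ((mat A B C) ^ p) (u, n') = 0 := by
    have h1 : ((u, n') : H × K) = (u, 0) + (0, n') := by simp
    rw [h1, map_add, mat_pow, mat_pow]
    have h2 : ∀ k, k ≤ p → fstPow A B C 0 n' k = 0 := by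
      intro k
      induction k with
      | zero => intro _; rfl
      | succ k ih =>
        intro hk
        show A (fstPow A B C 0 n' k) + C (((B : K →ₗ[ℂ] K) ^ k) n') = 0
        rw [ih (by omega), map_zero, zero_add]
        exact hj k (by omega) (by omega)
    have h3 : ∀ k, fstPow A B C u 0 k = ((A : H →ₗ[ℂ] H) ^ k) u := by
      intro k
      induction k with
      | zero => rfl
      | succ k ih =>
        show A (fstPow A B C u 0 k) + C (((B : K →ₗ[ℂ] K) ^ k) 0) = _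
        rw [ih, map_zero, map_zero, add_zero, pow_succ', Module.End.mul_apply]
        rfl
    rw [h2 p le_rfl, h3 p, LinearMap.mem_ker.mp hu, LinearMap.mem_ker.mp hn', map_zero]
    simp
  refine ⟨(a, z'' + t), ?_⟩
  rw [hv, map_add, hker, add_zero, pow_succ, Module.End.mul_apply]

/-- an operator of finite ascent is left Drazin invertible iff `R(A) + N(A^p)` is closed -/
theorem leftDrazin_iff [CompleteSpace H] {p : ℕ} (hA : asc (A : H →ₗ[ℂ] H) ≤ p) :
    LeftDrazin A ↔ IsClosed (SS A p : Set H) := by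
  have hker := (asc_le_iff _ _).mp hA
  obtain ⟨a, ha⟩ := ENat.ne_top_iff_exists.mp (ne_of_lt (lt_of_le_of_lt hA (ENat.natCast_lt_top p)))
  have hap : a ≤ p := by rw [← ha] at hA; exact_mod_cast hA
  have hka := (asc_le_iff (A : H →ₗ[ℂ] H) a).mp ha.ge
  have hkp : LinearMap.ker ((A : H →ₗ[ℂ] H) ^ p) = LinearMap.ker ((A : H →ₗ[ℂ] H) ^ a) := by
    obtain ⟨k, rfl⟩ := Nat.exists_eq_add_of_le hap
    exact ker_stable _ hka k
  constructor
  · rintro ⟨n, hn, hcl⟩
    have hna : n = a := by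
      rw [← ha] at hn
      exact (by exact_mod_cast hn.symm)
    subst hna
    have : (SS A p : Set H) = (fun x => (A ^ n) x) ⁻¹'
        (LinearMap.range ((A : H →ₗ[ℂ] H) ^ (n + 1)) : Set H) := by
      ext x
      constructor
      · intro hx
        obtain ⟨_, ⟨y, rfl⟩, u, hu, rfl⟩ := Submodule.mem_sup.mp hx
        rw [hkp, LinearMap.mem_ker, coe_pow] at hu
        refine ⟨y, ?_⟩
        show ((A : H →ₗ[ℂ] H) ^ (n + 1)) y = (A ^ n) (A y + u)
        rw [map_add, hu, add_zero, pow_succ, Module.End.mul_apply, ← coe_pow]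
        rfl
      · rintro ⟨y, hy⟩
        have hy' : ((A : H →ₗ[ℂ] H) ^ (n + 1)) y = ((A : H →ₗ[ℂ] H) ^ n) x := by
          rw [hy, coe_pow]
        rw [pow_succ, Module.End.mul_apply] at hy'
        have h1 : x - A y ∈ LinearMap.ker ((A : H →ₗ[ℂ] H) ^ p) := by
          rw [hkp, LinearMap.mem_ker, map_sub, ← hy']
          exact sub_self _
        exact Submodule.mem_sup.mpr ⟨A y, ⟨y, rfl⟩, x - A y, h1, by abel⟩
    rw [this]
    exact hcl.preimage (A ^ n).continuous
  · intro hS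
    have hkerPow : ∀ k, Pool.Agent.R579.Drazin.kerPow A k = LinearMap.ker ((A : H →ₗ[ℂ] H) ^ k) := by
      intro k
      ext x
      rw [Pool.Agent.R579.Drazin.mem_kerPow, LinearMap.mem_ker, coe_pow]
    have hranPow : ∀ k,
        Pool.Agent.R579.Drazin.ranPow A k = LinearMap.range ((A : H →ₗ[ℂ] H) ^ k) := by
      intro k
      ext x
      constructor
      · rintro ⟨z, rfl⟩; exact ⟨z, coe_pow _ _⟩
      · rintro ⟨z, rfl⟩; exact ⟨z, (coe_pow _ _).symm⟩
    have hasc : Pool.Agent.R579.Drazin.HasAscent A a := by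
      constructor
      · show Pool.Agent.R579.Drazin.kerPow A (a + 1) = Pool.Agent.R579.Drazin.kerPow A a
        rw [hkerPow, hkerPow]; exact hka
      · intro j hj
        have hj' : Pool.Agent.R579.Drazin.kerPow A (j + 1) =
          Pool.Agent.R579.Drazin.kerPow A j := hj
        rw [hkerPow, hkerPow] at hj'
        have := (asc_le_iff (A : H →ₗ[ℂ] H) j).mpr hj'
        rw [← ha] at this
        exact_mod_cast this
    have hSS : Pool.Agent.R579.Drazin.spS A p = SS A p := by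
      unfold Pool.Agent.R579.Drazin.spS SS
      rw [hkerPow, hranPow, pow_one]
    obtain ⟨b, hb, hcl⟩ := Pool.Agent.Results.MP_632fda_an.Q2True.leftDrazin_of_closed hasc hap
      (by rw [hSS]; exact hS)
    have hba : b = a := hb.unique hasc
    subst hba
    exact ⟨b, ha.symm, by rw [← hranPow]; exact hcl⟩

/-- for finite descent `≤ p`, right Drazin invertibility means that `R(B^p)` is closed -/
theorem rightDrazin_iff {p : ℕ} (hB : dsc (B : K →ₗ[ℂ] K) ≤ p) :
    RightDrazin B ↔ IsClosed (LinearMap.range ((B : K →ₗ[ℂ] K) ^ p) : Set K) := by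
  obtain ⟨b, hb⟩ := ENat.ne_top_iff_exists.mp (ne_of_lt (lt_of_le_of_lt hB (ENat.natCast_lt_top p)))
  have hbp : b ≤ p := by rw [← hb] at hB; exact_mod_cast hB
  have hrb := (dsc_le_iff (B : K →ₗ[ℂ] K) b).mp hb.ge
  have hr := range_dbl hrb hbp
  constructor
  · rintro ⟨n, hn, hcl⟩
    have hnb : n = b := by
      rw [← hb] at hn
      exact (by exact_mod_cast hn.symm)
    subst hnb
    rw [hr]; exact hcl
  · intro h
    exact ⟨b, hb.symm, by rw [← hr]; exact h⟩

end

/-- **Both questions, and the exact hypotheses.**  Let `asc A ≤ p`, `dsc B ≤ p`, `p ≥ 1`, and let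
`C` be admissible (given by any invertible `J : 𝒯 → 𝒮^⊥`; `𝒮` is not assumed closed). Then
`asc M_C ≤ p`, and the following are equivalent: `M_C` is Drazin invertible; `dsc M_C < ∞`;
`dsc M_C ≤ p`; `A` is left Drazin invertible and `B` is right Drazin invertible; `𝒮` is closed and
`B` is right Drazin invertible; `𝒮` and `N(B) ∩ R(B^p)` are closed. -/
theorem result :
    (∃ A B : L2 →L[ℂ] L2, Q1Fails A B) ∧
    ∀ (H K : Type) [NormedAddCommGroup H] [InnerProductSpace ℂ H] [CompleteSpace H]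
      [NormedAddCommGroup K] [InnerProductSpace ℂ K] [CompleteSpace K]
      (A : H →L[ℂ] H) (B : K →L[ℂ] K) (C : K →L[ℂ] H) (p : ℕ), 1 ≤ p →
      asc (A : H →ₗ[ℂ] H) ≤ p → dsc (B : K →ₗ[ℂ] K) ≤ p → Admissible A B p C →
      asc (mat A B C) ≤ p ∧
      (LeftDrazin A ↔ IsClosed (SS A p : Set H)) ∧
      List.TFAE [Drazin (mat A B C), dsc (mat A B C) < ⊤, dsc (mat A B C) ≤ p,
        LeftDrazin A ∧ RightDrazin B,
        IsClosed (SS A p : Set H) ∧ RightDrazin B,
        IsClosed (SS A p : Set H) ∧ IsClosed (((LinearMap.ker (B : K →ₗ[ℂ] K) ⊓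
          LinearMap.range ((B : K →ₗ[ℂ] K) ^ p) : Submodule ℂ K)) : Set K)] := by
  refine ⟨Weakenings.result.1, ?_⟩
  intro H K _ _ _ _ _ _ A B C p hp hA hB hC
  have hA' := (asc_le_iff _ _).mp hA
  have hB' := (dsc_le_iff _ _).mp hB
  have h0 : asc (mat A B C) ≤ p := (asc_le_iff _ _).mpr (asc_mat hp hA' hC)
  have hL := leftDrazin_iff (A := A) hA
  have hR := rightDrazin_iff (B := B) hB
  refine ⟨h0, hL, ?_⟩
  tfae_have 1 → 2 := fun h => h.2
  tfae_have 2 → 5 := fun h =>
    ⟨closed_SS_of_dsc hA' hC h, hR.mpr (closed_of_dsc hA' hB' hC h)⟩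
  tfae_have 5 → 6 := fun h => ⟨h.1, (ContinuousLinearMap.isClosed_ker B).inter (hR.mp h.2)⟩
  tfae_have 6 → 3 := fun h => (dsc_le_iff _ _).mpr (dsc_mat' hp hB' h.2 h.1 hC)
  tfae_have 3 → 1 := fun h => ⟨lt_of_le_of_lt h0 (ENat.natCast_lt_top p),
    lt_of_le_of_lt h (ENat.natCast_lt_top p)⟩
  tfae_have 4 ↔ 5 := by rw [hL]
  tfae_finish

end Pool.Agent.Results.MP_632fda_an.SharpHypotheses
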